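import Mathlib
import Pool.Agent.X18.UniTriGroup

/-!
# `ω(UU_4(F_q))` is not a polynomial in `q` for large `q`
-/

set_option autoImplicit false

namespace Pool.Agent.Results.MP_671173_al.NotPolynomial

open Pool.Agent.X18.UniTriGroup

/-- `ω(UU_4(F_q)) = q^3 + q^2 - q + 1` for `q` even, `ω(UU_4(F_q)) ≤ q^3 + q^2 - q` for `q` odd,
and consequently `ω(UU_4(F_q))` is not a polynomial in `q` for large `q`. -/
theorem result :
    (∀ (F : Type) [Field F] [Fintype F] [CharP F 2],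
      omega (UU 4 F) + Fintype.card F = Fintype.card F ^ 3 + Fintype.card F ^ 2 + 1) ∧
    (∀ (F : Type) [Field F] [Fintype F], ¬ Even (Fintype.card F) →
      omega (UU 4 F) + Fintype.card F ≤ Fintype.card F ^ 3 + Fintype.card F ^ 2) ∧
    ¬ ∃ (P : Polynomial ℚ) (q₀ : ℕ), ∀ (F : Type) [Field F] [Fintype F],
      q₀ ≤ Fintype.card F → (omega (UU 4 F) : ℚ) = P.eval (Fintype.card F : ℚ) := by
  refine ⟨fun F _ _ _ => omega_even, fun F _ _ h => omega_upper_odd h, ?_⟩
  rintro ⟨P, q₀, hP⟩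
  refine no_polynomial (P.map (algebraMap ℚ ℝ)) q₀ ?_
  intro F _ _ hF
  have h := hP F hF
  have h2 : ((omega (UU 4 F) : ℚ) : ℝ) = ((P.eval (Fintype.card F : ℚ) : ℚ) : ℝ) := by rw [h]
  have h3 : (P.map (algebraMap ℚ ℝ)).eval (Fintype.card F : ℝ) =
      ((P.eval (Fintype.card F : ℚ) : ℚ) : ℝ) := by
    have h4 : ((Fintype.card F : ℕ) : ℝ) = algebraMap ℚ ℝ (Fintype.card F : ℚ) := by simp
    rw [h4, Polynomial.eval_map_algebraMap, Polynomial.aeval_algebraMap_apply]
    simp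
  rw [h3, ← h2]
  simp

end Pool.Agent.Results.MP_671173_al.NotPolynomial
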